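import Pool.Agent.helper36.BP.SpecD

/-!
# Row bp:PF1 (MP_ad8ced_nt): the smooth polynomials
-/

set_option autoImplicit false

open Finset
open Pool.Agent.FI Pool.Agent.HK
open Pool.Agent.CH (nit rgh ll2)
open Pool.Agent.SK (tr0 Th)

noncomputable section

namespace Pool.Agent.BP

/-- Abel summation with an increasing weight. -/
private theorem PF1_abel (w : ℕ → ℝ) (b : ℕ → ℂ) (p : ℕ) (B : ℝ)
    (hmono : ∀ n, p ≤ n → w n ≤ w (n + 1)) :
    ∀ q : ℕ, p ≤ q → (∀ m, p ≤ m → m ≤ q → ‖∑ n ∈ Ico p m, b n‖ ≤ B) →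
      ‖∑ n ∈ Ico p q, (w n : ℂ) * b n - (w q : ℂ) * ∑ n ∈ Ico p q, b n‖ ≤ B * (w q - w p) := by
  intro q hq
  induction q, hq using Nat.le_induction with
  | base =>
    intro _
    simp
  | succ q hq ih =>
    intro hT
    have h1 := ih (fun m hm hm' => hT m hm (by omega))
    have h2 := hT (q + 1) (by omega) le_rfl
    rw [Finset.sum_Ico_succ_top hq, Finset.sum_Ico_succ_top hq]
    rw [Finset.sum_Ico_succ_top hq] at h2
    have h3 : ∑ n ∈ Ico p q, (w n : ℂ) * b n + (w q : ℂ) * b q - (w (q + 1) : ℂ) * (∑ n ∈ Ico p q, b n + b q)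
        = (∑ n ∈ Ico p q, (w n : ℂ) * b n - (w q : ℂ) * ∑ n ∈ Ico p q, b n)
          - (((w (q + 1) - w q : ℝ)) : ℂ) * (∑ n ∈ Ico p q, b n + b q) := by
      push_cast
      ring
    rw [h3]
    refine le_trans (norm_sub_le _ _) ?_
    rw [norm_mul, Complex.norm_real, Real.norm_eq_abs, abs_of_nonneg (by linarith [hmono q hq])]
    have h4 : (w (q + 1) - w q) * ‖∑ n ∈ Ico p q, b n + b q‖ ≤ (w (q + 1) - w q) * B :=
      mul_le_mul_of_nonneg_left h2 (by linarith [hmono q hq])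
    linarith

private theorem PF1_abel2 (w : ℕ → ℝ) (b : ℕ → ℂ) (p q : ℕ) (B : ℝ) (hB : 0 ≤ B) (hpq : p ≤ q)
    (hmono : ∀ n, p ≤ n → w n ≤ w (n + 1)) (hw : 0 ≤ w p) (hwq : 0 ≤ w q)
    (hT : ∀ m, p ≤ m → m ≤ q → ‖∑ n ∈ Ico p m, b n‖ ≤ B) :
    ‖∑ n ∈ Ico p q, (w n : ℂ) * b n‖ ≤ 2 * B * w q := by
  have h1 := PF1_abel w b p B hmono q hpq hT
  have h2 := hT q hpq le_rfl
  have h3 : ‖∑ n ∈ Ico p q, (w n : ℂ) * b n‖ ≤
      ‖∑ n ∈ Ico p q, (w n : ℂ) * b n - (w q : ℂ) * ∑ n ∈ Ico p q, b n‖ + ‖(w q : ℂ) * ∑ n ∈ Ico p q, b n‖ := by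
    have := norm_add_le (∑ n ∈ Ico p q, (w n : ℂ) * b n - (w q : ℂ) * ∑ n ∈ Ico p q, b n)
      ((w q : ℂ) * ∑ n ∈ Ico p q, b n)
    simpa using this
  rw [norm_mul, Complex.norm_real, Real.norm_eq_abs, abs_of_nonneg hwq] at h3
  have h4 : w q * ‖∑ n ∈ Ico p q, b n‖ ≤ w q * B := mul_le_mul_of_nonneg_left h2 hwq
  nlinarith [mul_nonneg hB hw]

theorem PF1 (hSMA : SMA_stmt) (hSMB : SMB_stmt) (hSRF : SRF_stmt) : PF1_stmt := by
  obtain ⟨C₁, hC₁, hA⟩ := hSMA
  obtain ⟨C₂, hC₂, hB⟩ := hSMB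
  refine ⟨16 * (C₁ + C₂), by positivity, ?_⟩
  intro d hd ψ hψ j i hj hi κ t hU hκ x a e ha
  set G : ℤ × ℤ → ℂ := fun z => HC ψ j i κ z * nit t (nn z) with hG
  -- the bound for the summatory function
  have hS : ∀ y : ℕ, ‖∑ z ∈ FF y, G z‖ ≤
      (C₁ + C₂) * (d : ℝ) ^ 3 * (1 + |κ| + |t| * (1 + Real.log y)) * √(y : ℝ) := by
    intro y
    have hpos : 0 ≤ (d : ℝ) ^ 3 * (1 + |κ| + |t| * (1 + Real.log y)) * √(y : ℝ) := by
      have : 0 ≤ Real.log y := Real.log_natCast_nonneg y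
      positivity
    by_cases hc : (∃ z, Nat.Coprime (nn z) d ∧ ψ z ≠ 1) ∨ j = 1
    · have h1 := hA d hd ψ hψ j i hj κ t hc y
      calc ‖∑ z ∈ FF y, G z‖ ≤ C₁ * (d : ℝ) ^ 3 * (1 + |κ| + |t| * (1 + Real.log y)) * √(y : ℝ) := h1
        _ = C₁ * ((d : ℝ) ^ 3 * (1 + |κ| + |t| * (1 + Real.log y)) * √(y : ℝ)) := by ring
        _ ≤ (C₁ + C₂) * ((d : ℝ) ^ 3 * (1 + |κ| + |t| * (1 + Real.log y)) * √(y : ℝ)) :=
          mul_le_mul_of_nonneg_right (by linarith) hpos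
        _ = _ := by ring
    · have hj0 : j = 0 := by
        have : j ≠ 1 := fun h => hc (Or.inr h)
        omega
      subst hj0
      have hz : ∀ z, Nat.Coprime (nn z) d → ψ z = 1 := by
        intro z hz
        by_contra hne
        exact hc (Or.inl ⟨z, hz, hne⟩)
      have h1 := hB d hd ψ hψ i κ t hz hκ hU y
      calc ‖∑ z ∈ FF y, G z‖ ≤ C₂ * (d : ℝ) ^ 3 * (1 + |κ| + |t| * (1 + Real.log y)) * √(y : ℝ) := h1
        _ = C₂ * ((d : ℝ) ^ 3 * (1 + |κ| + |t| * (1 + Real.log y)) * √(y : ℝ)) := by ring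
        _ ≤ (C₁ + C₂) * ((d : ℝ) ^ 3 * (1 + |κ| + |t| * (1 + Real.log y)) * √(y : ℝ)) :=
          mul_le_mul_of_nonneg_right (by linarith) hpos
        _ = _ := by ring
  have hp1 : 1 ≤ 2 ^ e := Nat.one_le_two_pow
  -- the partial sums of the block
  set B₀ : ℝ := 8 * (C₁ + C₂) * (d : ℝ) ^ 3 * (1 + |κ| + |t|) * (e + 1) * √((2 : ℝ) ^ e) with hB₀
  have hB₀0 : 0 ≤ B₀ := by positivity
  have hSb : ∀ u : ℕ, u ≤ 2 ^ (e + 1) → ‖∑ n ∈ Ioc 0 u, rf G n‖ ≤ B₀ / 2 := by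
    intro u hu
    rw [hSRF.1 G u]
    refine le_trans (hS u) ?_
    have hur : (u : ℝ) ≤ 2 ^ (e + 1) := by exact_mod_cast hu
    have hlog : Real.log u ≤ e + 1 := by
      rcases Nat.eq_zero_or_pos u with h0 | h0
      · subst h0
        simp
        positivity
      · have hu0 : (0 : ℝ) < u := by exact_mod_cast h0
        calc Real.log u ≤ Real.log (2 ^ (e + 1)) := Real.log_le_log hu0 hur
          _ = (e + 1 : ℝ) * Real.log 2 := by
            rw [Real.log_pow]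
            push_cast
            ring
          _ ≤ (e + 1 : ℝ) * 1 := by
            refine mul_le_mul_of_nonneg_left ?_ (by positivity)
            have := Real.log_two_lt_d9
            linarith
          _ = e + 1 := by ring
    have hsq : √(u : ℝ) ≤ 2 * √((2 : ℝ) ^ e) := by
      calc √(u : ℝ) ≤ √(2 ^ 2 * (2 : ℝ) ^ e) := by
            apply Real.sqrt_le_sqrt
            rw [pow_succ] at hur
            have : (0 : ℝ) < 2 ^ e := by positivity
            nlinarith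
        _ = 2 * √((2 : ℝ) ^ e) := by
            rw [Real.sqrt_mul (by positivity), Real.sqrt_sq (by norm_num)]
    have hfac : 1 + |κ| + |t| * (1 + Real.log u) ≤ 2 * (1 + |κ| + |t|) * (e + 1) := by
      have h1 : |t| * (1 + Real.log u) ≤ |t| * (2 * (e + 1)) := by
        refine mul_le_mul_of_nonneg_left ?_ (abs_nonneg t)
        have : (0 : ℝ) ≤ e := Nat.cast_nonneg e
        linarith
      have h2 : (0 : ℝ) ≤ e := Nat.cast_nonneg e
      have h3 : 0 ≤ |κ| := abs_nonneg κ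
      have h4 : 0 ≤ |κ| * e := mul_nonneg h3 h2
      nlinarith
    have hln : 0 ≤ Real.log u := Real.log_natCast_nonneg u
    calc (C₁ + C₂) * (d : ℝ) ^ 3 * (1 + |κ| + |t| * (1 + Real.log u)) * √(u : ℝ)
        ≤ (C₁ + C₂) * (d : ℝ) ^ 3 * (2 * (1 + |κ| + |t|) * (e + 1)) * (2 * √((2 : ℝ) ^ e)) := by
          refine mul_le_mul ?_ hsq (Real.sqrt_nonneg _) (by positivity)
          exact mul_le_mul_of_nonneg_left hfac (by positivity)
      _ = B₀ / 2 := by
          rw [hB₀]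
          ring
  have hT : ∀ m, 2 ^ e ≤ m → m ≤ 2 ^ (e + 1) → ‖∑ n ∈ Ico (2 ^ e) m, rf G n‖ ≤ B₀ := by
    intro m hm hm'
    have h1 : ∑ n ∈ Ico (2 ^ e) m, rf G n = ∑ n ∈ Ioc 0 (m - 1), rf G n - ∑ n ∈ Ioc 0 (2 ^ e - 1), rf G n := by
      have hI : ∀ k : ℕ, 1 ≤ k → Ioc 0 (k - 1) = Ico 1 k := by
        intro k hk
        ext n
        simp only [mem_Ioc, mem_Ico]
        omega
      rw [hI m (by omega), hI (2 ^ e) hp1, ← Finset.sum_Ico_consecutive _ hp1 hm]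
      ring
    rw [h1]
    refine le_trans (norm_sub_le _ _) ?_
    have h2 := hSb (m - 1) (by omega)
    have h3 := hSb (2 ^ e - 1) (by
      have : 2 ^ e ≤ 2 ^ (e + 1) := Nat.pow_le_pow_right (by norm_num) (by omega)
      omega)
    linarith
  -- the weight
  set w : ℕ → ℝ := fun n => if a = 0 then 1 else Real.log n with hw
  have hpol : pol (fun z => wt x a z * HC ψ j i κ z) e t =
      ∑ n ∈ Ico (2 ^ e) (2 ^ (e + 1)), (w n : ℂ) * rf G n := by
    unfold pol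
    refine Finset.sum_congr rfl (fun n hn => ?_)
    unfold rf
    rw [Finset.sum_mul, Finset.mul_sum]
    refine Finset.sum_congr rfl (fun z hz => ?_)
    rw [Finset.mem_filter] at hz
    have hwt : wt x a z = w n := by
      unfold wt
      rw [hw]
      rcases Nat.eq_zero_or_pos a with h0 | h0
      · simp [h0]
      · have h1 : a = 1 := by omega
        simp [h1, hz.2]
    rw [hwt, hG]
    simp only [hz.2]
    ring
  rw [hpol]
  have hmono : ∀ n, 2 ^ e ≤ n → w n ≤ w (n + 1) := by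
    intro n hn
    rw [hw]
    dsimp only
    split_ifs
    · exact le_rfl
    · have hn0 : (0 : ℝ) < n := by
        have : 0 < n := by omega
        exact_mod_cast this
      apply Real.log_le_log hn0
      push_cast
      linarith
  have hw0 : ∀ n, 0 ≤ w n := by
    intro n
    rw [hw]
    dsimp only
    split_ifs
    · norm_num
    · exact Real.log_natCast_nonneg n
  have hwq : w (2 ^ (e + 1)) ≤ e + 1 := by
    rw [hw]
    dsimp only
    split_ifs
    · have : (0 : ℝ) ≤ e := Nat.cast_nonneg e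
      linarith
    · push_cast
      rw [Real.log_pow]
      push_cast
      have h2 := Real.log_two_lt_d9
      have h3 : (0 : ℝ) ≤ e := Nat.cast_nonneg e
      nlinarith
  have hfin := PF1_abel2 w (rf G) (2 ^ e) (2 ^ (e + 1)) B₀ hB₀0
    (Nat.pow_le_pow_right (by norm_num) (by omega)) hmono (hw0 _) (hw0 _) hT
  refine le_trans hfin ?_
  have he1 : (1 : ℝ) ≤ e + 1 := by
    have : (0 : ℝ) ≤ e := Nat.cast_nonneg e
    linarith
  calc 2 * B₀ * w (2 ^ (e + 1)) ≤ 2 * B₀ * (e + 1) := mul_le_mul_of_nonneg_left hwq (by positivity)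
    _ = 16 * (C₁ + C₂) * (d : ℝ) ^ 3 * (1 + |κ| + |t|) * (e + 1) ^ 2 * √((2 : ℝ) ^ e) := by
      rw [hB₀]
      ring
    _ ≤ 16 * (C₁ + C₂) * (d : ℝ) ^ 3 * (1 + |κ| + |t|) * (e + 1) ^ 3 * √((2 : ℝ) ^ e) := by
      refine mul_le_mul_of_nonneg_right ?_ (Real.sqrt_nonneg _)
      refine mul_le_mul_of_nonneg_left ?_ (by positivity)
      exact pow_le_pow_right₀ he1 (by norm_num)

end Pool.Agent.BP
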